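import Mathlib

/-!
Pattern-restricted stacks: the map `s_T`.
-/

namespace Pool.Agent.MP_cfa423_co

/-- `l` contains the pattern `σ`: some subsequence of `l` of the same length as `σ` has its
entries in the same relative order as `σ`. -/
def Contains (l σ : List ℕ) : Prop :=
  ∃ u : List ℕ, u.Sublist l ∧ ∃ h : u.length = σ.length,
    ∀ (i j : ℕ) (hi : i < u.length) (hj : j < u.length), u[i] < u[j] ↔ σ[i] < σ[j]

/-- `l` avoids every pattern of `T`. -/
def Avoids (l : List ℕ) (T : Set (List ℕ)) : Prop := ∀ σ ∈ T, ¬ Contains l σ

open Classical in
/-- The output produced from the remaining input (first argument) and the current stack (second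
argument, read from top to bottom). -/
noncomputable def run (T : Set (List ℕ)) : List ℕ → List ℕ → List ℕ
  | [], st => st
  | x :: inp, [] => run T inp [x]
  | x :: inp, y :: st =>
      if Avoids (x :: y :: st) T then run T inp (x :: y :: st) else y :: run T (x :: inp) st
termination_by inp st => 2 * inp.length + st.length
decreasing_by all_goals simp only [List.length_cons, List.length_nil]; omega

/-- The map `s_T`: run the machine on the whole input from the empty stack. -/
noncomputable def sortMap (T : Set (List ℕ)) (p : List ℕ) : List ℕ := run T p []

end Pool.Agent.MP_cfa423_co
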